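import Pool.Agent.Run7.h174.Main3

/-!
# Asymptotically half of the signs are wrong, or none

Let `X` be a variety with a divisor `D` with positive degree, which satisfies hard Lefschetz and the
Lefschetz standard conjecture (for example an abelian variety with an ample divisor), over an
arbitrary field. No hypothesis of Hodge type is made. Let `b` be the total Betti number of `X`.

For the powers `X ^ n` let `posT` and `negT` be the numbers of positive and of negative squares of
the pairings `(-1) ^ m deg (z · D ^ (d - 2 m) · w)` of the standard conjecture of Hodge type on the
ring of all algebraic cycles modulo numerical equivalence (all translates `D ^ r · z` of the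
primitive classes `z` are counted, so a primitive class of codimension `m` on a variety of dimension
`d` counts `d - 2 m + 1` times).

**Theorem.** If the standard conjecture of Hodge type for numerical equivalence fails for one power
`X ^ n₀`, then for all `n`

* `|posT (X ^ n) - negT (X ^ n)| ≤ (b - 2 / (n₀ ^ 2 (1 + √b) ^ 2)) ^ n`,
* `b ^ n ≤ 2 b (2 (9 b ^ 2 + 1) n) ^ (2 b ^ 2) (posT (X ^ n) + negT (X ^ n))`;

so the proportion of the negative squares tends to `1 / 2`, exponentially fast. If it does not fail,
there are no negative squares at all. So the conjecture for all powers of `X` follows as soon as the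
proportion of the right signs exceeds `1 / 2 + ε` for infinitely many powers.

**The proof.** The coordinates of algebraic classes on the powers, in a basis of the cohomology of
`X`, form a system of tensors closed under permutations, products and contractions (with the signs
of the odd cohomology); the values of the closed networks are rational. We move finitely many of
them to the complex numbers and take a tuple of tensors of minimal norm with the same values of the
closed networks (Kempf and Ness). Its stabilizer `K` in the unitary group has as invariants exactly
the values of the networks (a form of the theorem of Tannaka, proved by averages over the unitary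
group), two minimal tuples differ by a unitary matrix, and this gives a unitary matrix `g` which
acts on the algebraic classes as the involution which separates positive and negative squares. So
the signature on `X ^ n` is the integral of `tr (g k) ^ n` over the Haar measure of `K`, and the rank
is the integral of `tr k ^ n`. The class `1` is fixed by `g k`, and a class of the wrong sign on
`X ^ n₀` gives an eigenvector with eigenvalue `-1` in the tensors with `n₀` legs, so that `g k` is
uniformly far from the scalar matrices.
-/

open CategoryTheory AlgebraicGeometry Filter Topology

universe u v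

namespace Pool.Agent.Results.MP_ffcd14_ag.HalfNegative

open Pool.Agent.H914 Pool.Agent.H914.VarClass Pool.Agent.H914.VarClass.Obj
  Pool.Agent.H281R3.HT Pool.Agent.W539.Ker Pool.Agent.Run7.h174

/-- **Asymptotically half of the signs of the standard conjecture of Hodge type are wrong, or
none.** Let `X` be a variety with a divisor `D` of positive degree which satisfies hard Lefschetz
and the Lefschetz standard conjecture (no Hodge type hypothesis), and `b` its total Betti number.
(0) The numbers of squares are finite. (1) The number `posT + negT` of all squares on `X ^ (n + 1)`
is at least `b ^ (n + 1)` divided by an explicit polynomial in `n`. (2) If the conjecture for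
numerical equivalence fails on `X ^ (n₀ + 1)`, then `|posT - negT|` is at most
`(b - δ) ^ (n + 1)` on `X ^ (n + 1)` for all `n`, with
`δ = 2 / ((n₀ + 1) ^ 2 (1 + √b) ^ 2)`. (3) Either the conjecture for numerical equivalence holds on
all powers, and there are no negative squares, or the proportion of the negative squares on
`X ^ (n + 1)` tends to `1 / 2`. -/
theorem result {k : Type u} [Field k] {𝒱 : VarClass k} {ops : CycleOps 𝒱}
    (W : WeilCohomology.{u, v} ops) (P : Polarized 𝒱) (hD : P.X.IsCyc 1 P.D)
    (hdeg : 0 < P.X.V.degCycle (divPow ops P.D P.X.dim P.X.V.fundCycle))
    (hHL : HardLefschetz W P.X P.D) (hB : LefschetzB W P.X P.D) :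
    (∀ n m, 2 * m ≤ (pw ops P n).X.dim →
      BddAbove {r | HasFamily W (pw ops P n).X (pw ops P n).D m 1 r} ∧
      BddAbove {r | HasFamily W (pw ops P n).X (pw ops P n).D m (-1) r}) ∧
    (∀ n, (totalBetti W P.X : ℝ) ^ (n + 1) ≤ 2 * (totalBetti W P.X : ℝ) *
      (2 * (9 * (totalBetti W P.X : ℝ) ^ 2 + 1) * (n + 1)) ^ (2 * totalBetti W P.X ^ 2) *
        (posT W (pw ops P n).X (pw ops P n).D + negT W (pw ops P n).X (pw ops P n).D)) ∧
    (∀ n₀, ¬ HodgeNum W (pw ops P n₀).X (pw ops P n₀).D → ∀ n,
      |(posT W (pw ops P n).X (pw ops P n).D : ℝ) - negT W (pw ops P n).X (pw ops P n).D| ≤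
        ((totalBetti W P.X : ℝ) - 2 / (((n₀ : ℝ) + 1) ^ 2 *
          (1 + Real.sqrt (totalBetti W P.X)) ^ 2)) ^ (n + 1)) ∧
    ((∀ n, HodgeNum W (pw ops P n).X (pw ops P n).D ∧
        negT W (pw ops P n).X (pw ops P n).D = 0) ∨
      Tendsto (fun n => (negT W (pw ops P n).X (pw ops P n).D : ℝ) /
        (posT W (pw ops P n).X (pw ops P n).D + negT W (pw ops P n).X (pw ops P n).D)) atTop
          (𝓝 (1 / 2))) := by
  refine ⟨fun n m hm => ?_, fun n => rank_main hD hHL hB hdeg n, fun n₀ hbad n => ?_,
    dichotomy hD hHL hB hdeg⟩
  · obtain ⟨f, G⟩ := exists_gd hD hHL hB
    exact bddAbove_family W (fr_N G.fr (ops := ops) n).hD hm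
  · unfold HodgeNum at hbad
    push Not at hbad
    obtain ⟨j, hj, z, hz, hw, hneg⟩ := hbad
    exact sig_main hD hHL hB hdeg n₀ hj hz hw hneg n

end Pool.Agent.Results.MP_ffcd14_ag.HalfNegative
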