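import Pool.Agent.Run7.h174.RwB

/-!
# The standard conjecture of Hodge type and isotropic classes on rational varieties

Theorem. Let `k` be any field, and let `I` be ANY infinite set of natural numbers, for example the
set of the powers of `2`. The following are equivalent; all cycles are modulo numerical equivalence.

* (Q1) The form `(-1) ^ n α · α · L ^ (d - 2 n)` is positive on the primitive classes `α ≠ 0` of cycles
  of codimension `n`, for ALL smooth projective varieties `X` over `k`, all ample `L` and all
  `n ≤ d / 2`, `d = dim X`.
* For all RATIONAL smooth projective varieties `T` over `k` whose dimension is `2 q` with `q ∈ I`, and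
  all ample `H` on `T`, the intersection form `(-1) ^ q z · z` is positive on the classes `z ≠ 0` of
  cycles of codimension `q` with `H · z = 0`.
* For all RATIONAL smooth projective varieties `T` over `k` whose dimension is `4 q` with `q ∈ I`, and
  all ample `H` on `T`, there is NO class `z ≠ 0` of a cycle of codimension `2 q` with `H · z = 0` and
  `z · z = 0`.

So the conjecture is equivalent to a statement without any signs or inequalities: primitive cycles of
the middle dimension on rational varieties, which are not numerically trivial, have a nonzero
self-intersection number. And if the conjecture fails for one polarized variety over `k`, then there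
are such isotropic classes on rational varieties of EVERY sufficiently large dimension divisible by
`4`. No conjecture, for example of Lefschetz type, is used. If one wants to consider only varieties
which satisfy the conjectures of Lefschetz and of Künneth type (as the problem does), take for `Pol`
the set of all these varieties with their ample divisors: the test varieties `T` of an `X` with these
properties have them too, since their motives are sums of Tate twists of `1` and of motives of
`X × P¹ × P¹`.

The counterpart in cohomology is the question of `MP_361a6f_ag`, see the file with the same name there.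

The test varieties (this is the application of the formal theorem `result`, in which their
properties are hypotheses, collected in `TestAt`, for a polarized variety `(X, L)`, a codimension
`p ≤ d / 2`, `d = dim X`, and a large number `q`). Let `t` be a very ample multiple of `L + O(1, 1)` on
`Y = X × Q`, where `Q = P¹ × P¹`. For large `n` the bundles `T_Y(n)` and `Ω_Y(n)` (twists by `n t`) are
generated by sections, and define, with the embedding by `t`, an embedding of `Y` into
`B = G₁ × G₂ × P ^ M`, with Grassmannians `G_l` of quotients `Q_l` of trivial bundles of rank `n_l`,
with kernels `U_l`, such that `Q₁`, `Q₂` restrict to `T_Y(n)`, `Ω_Y(n)`. On `B` consider the vector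
bundle `V = Q₁(-n) ⊕ ⨁_l (U_l^∨ ⊗ U_l ⊕ (Q_l^∨) ^ (n_l))`. Let `R₀` be the projective completion
`P(V ⊕ O)` of `V`, and embed `Y` into `R₀` by the zero section. In the Grothendieck group of `Y` the
normal bundle is the restriction of `T_B + V` minus `T_Y`. Since `T_(G_l) = n_l Q_l - Q_l^∨ ⊗ Q_l` and
`U_l^∨ ⊗ U_l = n_l ^ 2 - n_l Q_l - n_l Q_l^∨ + Q_l^∨ ⊗ Q_l`, the sum
`T_(G_l) + U_l^∨ ⊗ U_l + n_l Q_l^∨` is the trivial class `n_l ^ 2`, and `Q₁(-n)` restricts to `T_Y`. So the
normal bundle is `(M + 1) O(1) + trivial`, and its Chern classes are the classes
`binom(M + 1, m) t ^ m`. The class `det Q₁ + det Q₂` restricts to a multiple of `t`, since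
`c₁(T_Y) + c₁(Ω_Y) = 0`, and `O_(R₀)(1)` restricts to zero on the zero section, so there is an ample
class `A` on `R₀` which restricts to a positive multiple of `L + O(1, 1)` (`restrict`, `blow`). If `y` is
the difference of the two fibre classes of `Q`, then `O(1, 1) · y = 0`, `y · y = -2`, and all classes
`x × y` on `Y` have the image `0` in `H^*(R₀)` (`orth`): the restriction of `H^*(R₀)` to `Y` is generated
by Chern classes of `T_Y` and `t` and hence invariant under the involution of `Q`, which maps `y` to
`-y`. Let `c₀` be the codimension of `Y` in `R₀`. For all `c ≥ c₀` the variety `Y` is contained in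
`R = R₀ × P ^ (c - c₀)`, in the fibre over a point; the normal bundle changes by a trivial bundle, and
all properties remain true, with the ample class `A + O(1)`. So there is such a variety `R` with
`c = q - d + p`, for all `q ≥ q₀ = d - p + c₀`. It is rational, so the blow-up `Z` of `R` along `Y` and
its product with a projective space `F` of dimension `dim Z - 2 (p + 2) = d + c - 2 p - 2` are rational,
`Z × F` has the dimension `2 (d + c - p) = 2 q`, and `N π^* A - E` is ample for large `N` (`mem`).

The auxiliary varieties (`Aux`): for `q ≥ q₁ = 8` the variety `F = (P¹) ^ (2 q)` with `h = O(1, ..., 1)`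
has four orthogonal classes `f_i` of codimension `q` with `h · f_i = 0` and the same square, of the
sign `(-1) ^ q`. If `e_a` are the classes of the points on the factors, then on `(P¹) ^ 4` the classes
`f = (e₁ - e₂)(e₃ - e₄)`, `f' = (e₁ - e₃)(e₂ - e₄)` have the squares `4` and `f · f' = 2`, so `f` and
`g = 2 f' - f` are orthogonal with the squares `4` and `12`; on `(P¹) ^ 8` the classes `f × g`, `g × f` are
orthogonal with the squares `48`, hence there are four orthogonal classes with the square `48 ^ 2` on
`(P¹) ^ 16`. For `q > 8` multiply them by `(e - e')` on `q - 8` further pairs of factors. The product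
`T × F` is rational if `T` is.

Proof. Let `j : E → Z` be the exceptional divisor, `g : E → Y` the projection, `ξ` the class of
`O_E(1)`, `H_N = N π^* A - E`. Let `x` be a primitive class of codimension `p` on `X`, and
`s = d - 2 p`. Since `i_*(x × y) = 0`, the key formula gives a relation of degree `c - 1` (not only the
relation of Grothendieck, of degree `c`) between the classes `j_*(ξ ^ m g^*(L ^ l x × y))`. It follows
that `z = j_* g^*(x × y)` is annihilated by `H_N ^ (s + c - 1)`, i.e. it is exactly primitive, for EVERY
`N`. No projection to the primitive part of the cohomology of `Z`, which would need the conjecture of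
Lefschetz type, is necessary. By the projection formula
`z · z · H_N ^ (s + c - 2) = - P(N) λ ^ s (x · x · L ^ s) (y · y)`, where `P` is a polynomial which
depends only on the Segre classes, with leading coefficient `binom(s + c - 2, s) > 0`. So the
conjecture for `(Z, H_N)`, `N` large, in codimension `p + 2`, gives `(-1) ^ p x · x · L ^ s > 0`. For the
passage to the middle codimension, let `h` be an ample divisor on the variety `F` of dimension
`m = s + c - 2`: the class `w = ∑ (-1) ^ l H_N ^ l z × h ^ (m - l)` on `Z × F` has the middle codimension
`q` and is annihilated by `H_N + h`, and `w · w = (-1) ^ m (m + 1) (h ^ m) (z · z · H_N ^ m)`.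

Isotropic classes: let `z` be a primitive class of the middle dimension on `T`, `dim T = 2 q`, with
`(-1) ^ q z · z ≤ 0`. On `T × F`, with the polarization `H + h`, the classes `z × f_i` and
`v = ∑ (-1) ^ l H ^ l × h ^ (2 q - l)` are primitive and orthogonal, `v · v > 0` and the squares of the
`z × f_i` are equal to one number `≤ 0`. If it is `0` then `z × f_1` is isotropic, otherwise there is an
isotropic rational combination of `v` and the `z × f_i`, by Lagrange's theorem on four squares.

In Lean, `𝒱` is a class of smooth proper schemes over `k` with products, `ops` are the operations on
cycles and `W` is a Weil cohomology (starting files `Pool/Agent/H914R2`); `Pol` is the set of all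
varieties with an ample divisor, and `S` the set of the rational ones.
-/

set_option autoImplicit false

open CategoryTheory AlgebraicGeometry
open Pool.Agent.H914 Pool.Agent.H281R3.HT Pool.Agent.Run7.h174.RV

namespace Pool.Agent.Results.MP_ffcd14_ag.IsotropicClasses

universe u v

/-- The conjecture of Hodge type modulo numerical equivalence for all polarized varieties is
equivalent to positivity in the middle codimension for the test varieties of the dimensions `2 q`,
`q ∈ I`, and to the absence of isotropic primitive classes in the middle codimension for the test
varieties of the dimensions `4 q`, `q ∈ I`, for any infinite set `I`. -/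
theorem result {k : Type u} [Field k] {𝒱 : VarClass k} {ops : CycleOps 𝒱}
    (W : WeilCohomology.{u, v} ops) {Pol S : Set (Polarized 𝒱)} (hSP : S ⊆ Pol)
    (hτ : ∀ P ∈ Pol, ∀ p, 2 * p ≤ P.X.dim → ∃ q₀, ∀ q, q₀ ≤ q → Nonempty (TestAt W S P p q))
    {q₁ : ℕ} (hF : ∀ T ∈ S, ∀ q, q₁ ≤ q → T.X.dim = 2 * q → Nonempty (Aux W S T q))
    {I : Set ℕ} (hI : I.Infinite) :
    ((∀ P ∈ Pol, HodgeNum ops P) ↔
        ∀ T ∈ S, ∀ q ∈ I, T.X.dim = 2 * q → MiddleNum ops T) ∧
      ((∀ P ∈ Pol, HodgeNum ops P) ↔
        ∀ T ∈ S, ∀ q ∈ I, T.X.dim = 4 * q → IsAnisotropicNum ops T) :=
  main_num W hSP hτ hF hI

end Pool.Agent.Results.MP_ffcd14_ag.IsotropicClasses
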