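import Mathlib
import Pool.Agent.Run7.h142.TF.Elem
import Pool.Agent.Run7.h142.TF.TypesInd
import Pool.Agent.Run7.h142.JT.Disc
import Pool.Agent.TH117.PO.Full

/-!
# The standard conjecture of Hodge type for abelian varieties over finite fields with several Weil
numbers of the same CM fields

Over an algebraic closure of the field with `p` elements each abelian variety is isogenous to the
reduction of an abelian variety of CM type (Honda, Tate). So an abelian variety over the field with
`p ^ a` elements is modelled by `RedAV`: a finite product of CM types with Weil numbers `π i` that
satisfy the formula of Shimura and Taniyama; its cohomology of degree `n`, with coefficients in an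
algebraically closed field `Ω`, consists of the alternating `n`-forms on `Ω ⊗ H_1`, on which the
Frobenius endomorphism acts by `π`. We fix an isomorphism `ν` of the algebraic closure of `ℚ_p` with
`ℂ`; it defines a `p`-adic valuation of `ℂ`, with the value one at `p`.

Let `E k` be finitely many CM fields without rigid pairs (`NoRigidPairs`): for a complex embedding `x`
of `E k` and a complex embedding `y` of `E l` which is not `x` or its complex conjugate, some
automorphism of `ℂ` fixes `x` and maps `y` to its complex conjugate. This is true for generic CM fields
of any degree; by the third part of the theorem it is true if for each `k` some prime divides the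
discriminant of `E k`, but its square does not divide the product of the discriminants of all the
fields. For each `k` let `w k i`, `i : I k`, be finitely many rational functions on the complex
embeddings of `E k`, with `w (conj φ) = - w φ`, which are linearly independent over `ℚ`. They prescribe
the slope deviations `2 λ - 1` of abelian varieties, for the slopes `λ`. Let `𝒞` (`OfSlopes`) be the
class of the abelian varieties `Y` each of whose factors is supersingular or has a Frobenius
endomorphism some power of which is, for some `k` and `i`, a number in `E k` with the slope deviation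
proportional to `w k i` (the factor `b k i ≠ 0` of proportionality depends only on `Y`, `k` and `i`).
So `Y` is, over an algebraic closure, isogenous to a product of powers of one abelian variety for
each pair `(k, i)` and of a supersingular one: many abelian varieties without common isogeny factors
may belong to the same field `E k`.

**Then the standard conjecture of Hodge type holds for all abelian varieties `Y` in `𝒞`, all
polarizations and all codimensions `r`, `dim Y = 2 r + m`: a class `z` in `H^{2 r}(Y)` of an algebraic
cycle which is primitive and not zero has `(-1)^r z ∪ z ∪ E^m > 0`** (`HodgeTypeFor`). The class `𝒞`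
contains all products of powers of its members, and the products of its members with supersingular
abelian varieties.

The second part: let `E` be one CM field of degree `2 g` without rigid pairs and `M i`, `i < r`,
functions with nonzero integral values on its complex embeddings, invariant under complex conjugation.
For a family of CM types `Φ i` of `E` let `w i = ± M i` on `Φ i` and on its complement (`signed`). The
case `M = 1` is the case of ordinary abelian varieties. **The number of the families of `r` types for
which the conclusion is false is at most `2 ^ (g r) * (2 ^ r - 1) / 2 ^ g`**, of altogether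
`2 ^ (g r)`. So it is an exponentially small proportion for fixed `r`. And for all `r ≤ g`, there are
families of `r` types for which the conclusion is true.

The space of the classes of algebraic cycles of degree `card κ` on `Y`, with rational coefficients, is
`C Y κ`. The properties of these spaces that are used are known theorems: they are closed under sums,
cup products, pull-backs and push-forwards, they contain the Hodge classes of degree two of the
liftings (Lefschetz) and the split Weil classes of degree four and six (Markman; not needed here), and
the Tate classes of degree two are combinations of such classes (Tate) (`IsCycleSystem`); the positivity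
of the Rosati involution (Weil, `IsRosatiPositive`); classes of cycles are Tate classes over finite
extensions (`AreTate`). The polarizations are those compatible with the complex multiplications of the
lifting (`IsPolar`, with the Riemann form `∑ i, Tr (α i * conj (x i) * y i)`); by theorems of Honda,
Tate and Zink each polarized abelian variety over an algebraic closure of a finite field is isogenous
to the reduction of such a polarized abelian variety. That the positivity follows if all Tate classes
are combinations of products of classes of divisors was formalized by helper117 (MP_c0b458_ag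
PowersAndProducts).

The starting results (`AlmostAllSlopeTypes` and others) treat one abelian variety for each of several
independent fields, for which the question is the nondegeneracy of each of the slope types. If several
abelian varieties belong to the same field then the Galois actions on the conjugates of their Weil
numbers are the same, and the relations between them are the new difficulty.

The proof. A relation between the Frobenius eigenvalues of `Y` gives functions `c k i` on the
embeddings of `E k` with `c (conj φ) = - c φ` and `∑ c k i φ * b k i * w k i (σ φ) = 0` for all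
automorphisms `σ`, the sum over `k`, `i`, `φ`. We sum these relations for all `σ` (of a finite Galois
group) which map a given embedding `φ` of `E k` to a given embedding `ψ`. The terms with embeddings
different from `φ` and `conj φ` cancel, since there are no rigid pairs. So
`∑ i, c k i φ * b k i * w k i ψ = 0` for all `φ`, `ψ`, and `c k i φ = 0` since the rational functions
`w k i` are linearly independent. For the second part: a linear subspace of dimension `d` contains at
most `2 ^ d` of the `2 ^ g` vectors `(± m φ)`, `φ` in a fixed CM type, for fixed numbers `m φ ≠ 0`.
-/

set_option autoImplicit false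

namespace Pool.Agent.Results.MP_ffcd14_ag.SeveralWeilNumbers

open NumberField Module Pool.Agent.H204R3.CM Pool.Agent.TH117.PO Pool.Agent.W495.TA
  Pool.Agent.W547.KB Pool.Agent.Run7.h142.JT Pool.Agent.Run7.h142.TF

/-- The standard conjecture of Hodge type for the abelian variety `Y`: for each primitive class
`z ≠ 0` in `H^{2 r}(Y)` of an algebraic cycle, `(-1)^r z ∪ z ∪ E^m > 0`, where `E` is the class of the
polarization given by `α`, and `dim Y = 2 r + m`. -/
def HodgeTypeFor {p : ℕ} [Fact p.Prime] {ν : PadicAlgCl p ≃+* ℂ} (Y : RedAV p ν) : Prop :=
  ∀ (Ω : Type) [Field Ω] [CharZero Ω] [IsAlgClosed Ω]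
    (C : (Y : RedAV p ν) → (κ : Type) → ((TM Ω Y) [⋀^κ]→ₗ[Ω] Ω) → Prop), IsCycleSystem Ω C →
    IsRosatiPositive Ω C → AreTate Ω C →
      ∀ α : Y.X.H1, IsPolar Y.X α → ∀ r m : ℕ, 2 * (2 * r + m) = finrank ℚ Y.X.H1 →
        ∀ z : (TM Ω Y) [⋀^Fin r × Fin 2]→ₗ[Ω] Ω, C Y (Fin r × Fin 2) z → z ≠ 0 →
          IsPrim α m z → IsPosClass α m z

/-- The functions `± M i`, with the sign `+` on the types `Φ i` and `-` on their complements. -/
noncomputable def signed {E : Type} [Field E] {r : ℕ} (M : Fin r → (E →+* ℂ) → ℤ)
    (Φ : Fin r → Set (E →+* ℂ)) : Unit → Fin r → (E →+* ℂ) → ℚ :=
  fun _ i φ => M i φ * sgnF (Φ i) φ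

/-- The families of `r` types for which the standard conjecture of Hodge type is false for some
abelian variety with these slopes. -/
def exceptionalFamilies {p : ℕ} [Fact p.Prime] (ν : PadicAlgCl p ≃+* ℂ) (E : Type) [Field E]
    {r : ℕ} (M : Fin r → (E →+* ℂ) → ℤ) : Set (Fin r → Set (E →+* ℂ)) :=
  {Φ | (∀ i, IsCMType (Φ i)) ∧ ¬ ∀ Y : RedAV p ν,
    OfSlopes (E := fun _ : Unit => E) (I := fun _ => Fin r) (signed M Φ) Y → HodgeTypeFor Y}

theorem hodgeType_of {p : ℕ} [Fact p.Prime] {ν : PadicAlgCl p ≃+* ℂ} {Y : RedAV p ν}
    (h : TH117.BL.HasElementaryRelations Y) : HodgeTypeFor Y := by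
  intro Ω _ _ _ C hC hR hT α hα r m hrm z hz hz0 hprim
  exact positive_full hC hR hT (Or.inr ⟨Y, h, fun k => Or.inr
    ⟨k, RingHom.id _, 1, 1, one_pos, one_pos, rfl, rfl⟩⟩) hα hrm hz hz0 hprim

/-- **The standard conjecture of Hodge type for all abelian varieties over finite fields with
independent slopes in CM fields without rigid pairs.** -/
theorem result :
    (∀ (p : ℕ) [Fact p.Prime] (ν : PadicAlgCl p ≃+* ℂ) (κ : Type) [Fintype κ] (E : κ → Type)
      [∀ k, Field (E k)] [∀ k, NumberField (E k)] [∀ k, IsCMField (E k)] (I : κ → Type)
      [∀ k, Fintype (I k)] (w : ∀ k, I k → (E k →+* ℂ) → ℚ), NoRigidPairs E →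
      (∀ k i φ, w k i (ComplexEmbedding.conjugate φ) = - w k i φ) →
      (∀ k, LinearIndependent ℚ (w k)) → ∀ Y : RedAV p ν, OfSlopes w Y → HodgeTypeFor Y) ∧
    (∀ (p : ℕ) [Fact p.Prime] (ν : PadicAlgCl p ≃+* ℂ) (E : Type) [Field E] [NumberField E]
      [IsCMField E] (g r : ℕ) (M : Fin r → (E →+* ℂ) → ℤ), finrank ℚ E = 2 * g →
      NoRigidPairs (fun _ : Unit => E) → (∀ i φ, M i φ ≠ 0) →
      (∀ i φ, M i (ComplexEmbedding.conjugate φ) = M i φ) →
        (exceptionalFamilies ν E M).ncard * 2 ^ g ≤ (2 ^ r - 1) * 2 ^ (g * r)) ∧
    ∀ (κ : Type) [Fintype κ] (E : κ → Type) [∀ k, Field (E k)] [∀ k, NumberField (E k)]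
      [∀ k, IsCMField (E k)], (∀ k, ∃ ℓ : ℕ, ℓ.Prime ∧ (ℓ : ℤ) ∣ discr (E k) ∧
        ¬ (ℓ : ℤ) ^ 2 ∣ ∏ l, discr (E l)) → NoRigidPairs E := by
  refine ⟨?_, ?_, ?_⟩
  · intro p _ ν κ _ E _ _ _ I _ w hE hw hli Y hY
    exact hodgeType_of (elementary_of_slopes hE hw hli hY)
  · intro p _ ν E _ _ _ g r M hg hE hM hMc
    refine ncard_several_lin E hg M hM _ fun Φ hΦ hli Y hY => ?_
    refine hodgeType_of (elementary_of_slopes (E := fun _ : Unit => E) (I := fun _ => Fin r) hE
      (fun _ i φ => ?_) (fun _ => hli) hY)
    change (M i (ComplexEmbedding.conjugate φ) : ℚ) * sgnF (Φ i) (ComplexEmbedding.conjugate φ) =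
      -((M i φ : ℚ) * sgnF (Φ i) φ)
    rw [hMc, sgnF_conj (hΦ i)]
    ring
  · intro κ _ E _ _ _ h
    exact noRigidPairs_of_discr h

end Pool.Agent.Results.MP_ffcd14_ag.SeveralWeilNumbers
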