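import Mathlib
import Pool.Agent.Run7.h301.TW.Elem
import Pool.Agent.Run7.h301.TW.TypesFun
import Pool.Agent.Run7.h301.TW.Examples
import Pool.Agent.TH117.PO.Full

/-!
# The standard conjecture of Hodge type for abelian varieties over finite fields with slopes in a forest
of CM fields

Over an algebraic closure of the field with `p` elements each abelian variety is isogenous to the
reduction of an abelian variety of CM type (Honda, Tate). So an abelian variety over the field with
`p ^ a` elements is modelled by `RedAV`: a finite product of CM types with Weil numbers `π i` that
satisfy the formula of Shimura and Taniyama; its cohomology of degree `n`, with coefficients in an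
algebraically closed field `Ω`, consists of the alternating `n`-forms on `Ω ⊗ H_1`, on which the
Frobenius endomorphism acts by `π`. We fix an isomorphism `ν` of the algebraic closure of `ℚ_p` with
`ℂ`; it defines a `p`-adic valuation of `ℂ`, with the value one at `p`.

Let `F v`, `v : V`, be finitely many CM fields with inclusions `F u → F v` for `u ≤ v`, where `V` is a
finite partially ordered set in which the elements below any element form a chain. So `V` is a forest,
and the fields below a given field form a tower: for instance a tower `F 0 ⊂ F 1 ⊂ ... ⊂ F n`, several
towers, or several towers with a common lower part. We assume that the automorphisms of `ℂ` act on the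
complex embeddings of the fields as freely as the inclusions permit (`FreeForest`). Two embeddings `x`
of `F v` and `y` of `F w` agree on `F u` if `u ≤ v`, `u ≤ w` and they have the same restriction to
`F u` (`Agree`). If `x` and `y` agree on no field of the forest, and `x` and `conj y` neither, then some
automorphism of `ℂ` fixes `x` and maps `y` to `conj y`. If `x` agrees with `y` and with `y'` on the same
fields, at least one, then some automorphism fixes `x` and maps `y` to `y'`.

Let `D i`, `i ∈ I`, be finitely many rational functions on the complex embeddings of the fields
`F (w i)`, with `D (conj φ) = - D φ`, possibly several for the same field, at any level. Their norms are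
independent (`IndependentFunctions`) if for each `i₀` the norms of all the `D i` to all the fields `F u`
contained in `F (w i)` and in `F (w i₀)` are linearly independent over `ℚ`, as functions of the
embeddings of `F (w i₀)`; the norm to `F u` is the sum of the values at the embeddings that have a given
restriction to `F u`. The functions prescribe the slope deviations `2 λ - 1` of abelian varieties, for
the slopes `λ`.

If `x` and `y` agree on a CM field `F u` then no automorphism fixes `x` and maps `y` to `conj y`: the
pair `(x, y)` is rigid. The results `SeveralWeilNumbers` (helper142) of this run treat the case without
rigid pairs, the forests without inclusions, and the fields with rigid pairs are left open there. Every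
CM field that contains a smaller CM field has rigid pairs, for instance the fields `k R` with `k`
imaginary quadratic and `R` totally real, and in this case there are abelian varieties with exotic
classes (the Weil classes). In the theorem the norms to the smaller fields decide: for `k R` with the
Galois group of `R` doubly transitive the condition on one function `D` is that it is not constant on
the embeddings over an embedding of `k` and that its mean value there is not zero; for ordinary abelian
varieties this says that the signature `(r, s)` over `k` satisfies `r s ≠ 0` and `r ≠ s`.

Let `𝒞` (`OfSlopes`, with the fields `F (w i)`) be the class of the abelian varieties `Y` each of whose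
factors is supersingular or has a Frobenius endomorphism some power of which is, for some `i`, a number
in `F (w i)` with the slope deviation proportional to `D i` (the factor `b i ≠ 0` of proportionality
depends only on `Y` and `i`). So `Y` is, over an algebraic closure, isogenous to a product of powers of
one abelian variety for each `i` and of a supersingular one: many abelian varieties without common
isogeny factors may belong to the same field or to fields with common CM subfields.

**The standard conjecture of Hodge type holds for all abelian varieties `Y` in `𝒞`, all
polarizations and all codimensions `r`, `dim Y = 2 r + m`: a class `z` in `H^{2 r}(Y)` of an algebraic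
cycle which is primitive and not zero has `(-1)^r z ∪ z ∪ E^m > 0`** (`HodgeTypeFor`). The class `𝒞`
contains all products of powers of its members, and the products of its members with supersingular
abelian varieties.

The space of the classes of algebraic cycles of degree `card κ` on `Y`, with rational coefficients, is
`C Y κ`. The properties of these spaces that are used are known theorems: they are closed under sums,
cup products, pull-backs and push-forwards, they contain the Hodge classes of degree two of the
liftings (Lefschetz) and the split Weil classes of degree four and six (Markman; not needed here), and
the Tate classes of degree two are combinations of such classes (Tate) (`IsCycleSystem`); the positivity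
of the Rosati involution (Weil, `IsRosatiPositive`); classes of cycles are Tate classes over finite
extensions (`AreTate`). The polarizations are those compatible with the complex multiplications of the
lifting (`IsPolar`, with the Riemann form `∑ i, Tr (α i * conj (x i) * y i)`). That the positivity
follows if all Tate classes are combinations of products of classes of divisors was formalized by
helper117 (MP_c0b458_ag PowersAndProducts).

The second part: for given `w 0`, ..., `w (r - 1)` let `M i` be functions with nonzero integral values
on the complex embeddings of `F (w i)`, invariant under complex conjugation. For a family of CM types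
`Φ i` of `F (w i)` let `D i = ± M i` on `Φ i` and on its complement. The case `M = 1` is the case of
ordinary abelian varieties. **The proportion of the families of CM types for which the conclusion is
false is at most** `exceptional F w`, the sum over all `i` and all the fields `F u ⊆ F (w i)` of
`b (t) ^ (d - j)`, where `b (t)` is the largest probability `binomial (t, t / 2) / 2 ^ t` of a value of a
sum of `t` independent signs, `t = [F (w i) : F u]`, `2 d` is the difference of the degrees of `F u` and
of the largest field of the forest below `F u` (or the degree of `F u`, if there is none), and `j` is the
number of the `i' < i` with `F u ⊆ F (w i')`. So almost all families are good if the steps of the towers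
are large, or (for the lowest step) if `t` is large and there is one function above it: for one ordinary
abelian variety with multiplication by `k R` of degree `2 g` the bound is
`binomial (g, g / 2) / 2 ^ g + 2 ^ (1 - g)`.

The third part (`ForestExamples`) gives examples of free forests with rigid pairs: the CM fields `E`
with an imaginary quadratic subfield for which the automorphisms of `ℂ` act doubly transitively on the
embeddings of the maximal real subfield `K`. Families of CM fields without rigid pairs are free forests
without inclusions (`freeForest_of_noRigidPairs` in the file TW.Examples).

The proof. A relation between the Frobenius eigenvalues of `Y` gives functions `c i` on the embeddings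
of `F (w i)` with `c i (conj φ) = - c i φ` and `∑ c i φ * b i * D i (σ φ) = 0` for all automorphisms
`σ`, the sum over `i` and `φ`. If `c i₀ x ≠ 0` then we take the mean value of the translates of `c`
under the automorphisms (of a finite Galois group) that fix `x`. It is not zero at `(i₀, x)`. It is zero
at `(i, y)` if `x` agrees neither with `y` nor with `conj y` on any field, and otherwise it depends only
on the fields on which `x` and `y` (or `conj y`) agree. These fields are the fields below some field, so
the mean value is a linear combination of the characteristic functions of the sets of the `y` that agree
with `x` on `F u`, made odd, and the relation becomes a linear relation between the norms of the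
functions `D i` to the fields `F u`. For the second part: if the norms are dependent then for some `u` and
`i` the norm to `F u` of the signed weight function of `Φ i` is in the sum of the span of the norms of
those with smaller index and of the space of the odd functions that come from smaller fields. A subspace
of dimension `d` of the functions on `h` points contains a vector of independent sums of `t` signs with
nonzero weights at most with the probability `b (t) ^ (h - d)`, by the Littlewood-Offord theorem of
Erdős.
-/

set_option autoImplicit false

namespace Pool.Agent.Results.MP_ffcd14_ag.WeilNumberForests

open NumberField Module Pool.Agent.H204R3.CM Pool.Agent.TH117.PO Pool.Agent.W495.TA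
  Pool.Agent.W547.KB Pool.Agent.Run7.h142.JT Pool.Agent.Run7.h142.TF Pool.Agent.Run7.h301.TW

/-- The standard conjecture of Hodge type for the abelian variety `Y`: for each primitive class
`z ≠ 0` in `H^{2 r}(Y)` of an algebraic cycle, `(-1)^r z ∪ z ∪ E^m > 0`, where `E` is the class of the
polarization given by `α`, and `dim Y = 2 r + m`. -/
def HodgeTypeFor {p : ℕ} [Fact p.Prime] {ν : PadicAlgCl p ≃+* ℂ} (Y : RedAV p ν) : Prop :=
  ∀ (Ω : Type) [Field Ω] [CharZero Ω] [IsAlgClosed Ω]
    (C : (Y : RedAV p ν) → (κ : Type) → ((TM Ω Y) [⋀^κ]→ₗ[Ω] Ω) → Prop), IsCycleSystem Ω C →
    IsRosatiPositive Ω C → AreTate Ω C →
      ∀ α : Y.X.H1, IsPolar Y.X α → ∀ r m : ℕ, 2 * (2 * r + m) = finrank ℚ Y.X.H1 →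
        ∀ z : (TM Ω Y) [⋀^Fin r × Fin 2]→ₗ[Ω] Ω, C Y (Fin r × Fin 2) z → z ≠ 0 →
          IsPrim α m z → IsPosClass α m z

/-- The standard conjecture of Hodge type holds for all abelian varieties with the slope deviations
`D i` in the fields `K i`. -/
def HodgeTypeForSlopes {p : ℕ} [Fact p.Prime] (ν : PadicAlgCl p ≃+* ℂ) {I : Type} (K : I → Type)
    [∀ i, Field (K i)] (D : ∀ i, (K i →+* ℂ) → ℚ) : Prop :=
  ∀ Y : RedAV p ν, OfSlopes (E := K) (I := fun _ => Unit) (fun i _ => D i) Y → HodgeTypeFor Y

theorem hodgeType_of {p : ℕ} [Fact p.Prime] {ν : PadicAlgCl p ≃+* ℂ} {Y : RedAV p ν}
    (h : TH117.BL.HasElementaryRelations Y) : HodgeTypeFor Y := by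
  intro Ω _ _ _ C hC hR hT α hα r m hrm z hz hz0 hprim
  exact positive_full hC hR hT (Or.inr ⟨Y, h, fun k => Or.inr
    ⟨k, RingHom.id _, 1, 1, one_pos, one_pos, rfl, rfl⟩⟩) hα hrm hz hz0 hprim

/-- **The standard conjecture of Hodge type for all abelian varieties over finite fields with
slopes in a free forest of CM fields whose norms are independent.** -/
theorem result :
    (∀ (p : ℕ) [Fact p.Prime] (ν : PadicAlgCl p ≃+* ℂ) (V : Type) [Fintype V] [PartialOrder V]
      (F : V → Type) [∀ v, Field (F v)] [∀ v, NumberField (F v)] [∀ v, IsCMField (F v)]
      (inc : Inclusions F) (I : Type) [Fintype I] (w : I → V)
      (D : ∀ i, (F (w i) →+* ℂ) → ℚ), FreeForest F inc →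
      (∀ i φ, D i (ComplexEmbedding.conjugate φ) = - D i φ) → IndependentFunctions inc w D →
        HodgeTypeForSlopes ν (fun i => F (w i)) D) ∧
    (∀ (p : ℕ) [Fact p.Prime] (ν : PadicAlgCl p ≃+* ℂ) (V : Type) [Fintype V] [PartialOrder V]
      (F : V → Type) [∀ v, Field (F v)] [∀ v, NumberField (F v)] [∀ v, IsCMField (F v)]
      (inc : Inclusions F) (r : ℕ) (w : Fin r → V)
      (M : ∀ i, (F (w i) →+* ℂ) → ℤ), FreeForest F inc → (∀ i φ, M i φ ≠ 0) →
      (∀ i φ, M i (ComplexEmbedding.conjugate φ) = M i φ) →
        ({Φ : ∀ i, Set (F (w i) →+* ℂ) | (∀ i, IsCMType (Φ i)) ∧ ¬ HodgeTypeForSlopes ν
          (fun i => F (w i)) (fun i φ => (M i φ : ℚ) * sgnF (Φ i) φ)}.ncard : ℝ) ≤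
            exceptional F w * ∏ i, 2 ^ half (F (w i))) ∧ ForestExamples := by
  refine ⟨?_, ?_, forestExamples⟩
  · intro p _ ν V _ _ F _ _ _ inc I _ w D hF hD hli Y hY
    exact hodgeType_of (elementary_of_forest hF hD hli hY)
  · intro p _ ν V _ _ F _ _ _ inc r w M hF hM0 hM
    refine ncard_forest_fun hF hM0 hM _ fun Φ hΦ hli Y hY => ?_
    refine hodgeType_of (elementary_of_forest hF (fun i φ => ?_) hli hY)
    rw [hM, sgnF_conj' (hΦ i)]
    ring

end Pool.Agent.Results.MP_ffcd14_ag.WeilNumberForests
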